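import Pool.Agent.Q176.LM.U

/-!
# J1a - J1f: integrals of Walsh kernels
-/

open scoped BigOperators Topology ENNReal
open MeasureTheory Finset Filter Q94.WF Q94.LM

namespace Q176.LM

lemma two_rpow_nat (l : ℕ) (a : ℝ) : (2 : ℝ) ^ ((l : ℝ) * a) = ((2 : ℝ) ^ a) ^ l := by
  rw [mul_comm, Real.rpow_mul (by norm_num), Real.rpow_natCast]

theorem j1a : J1a := by
  intro p l g hp hg
  set h : G → ℝ := fun x => (1 + r l x) * g x with hh
  have hm : Measurable h := (measurable_const.add (measurable_r l)).mul hg.measurable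
  have h1 : E p (fun x => h (Q94.WF.flip l x)) = E p h := E_flip l hm
  have h2 : E p h + E p h = ENNReal.ofReal (2 ^ p) * E p g := by
    conv_lhs => rw [← h1]
    conv_lhs => enter [2]; rw [h1]
    unfold E
    rw [← lintegral_add_right _ (hm.enorm.pow_const p),
      ← lintegral_const_mul' _ _ ENNReal.ofReal_ne_top]
    refine lintegral_congr fun x => ?_
    have e1 : h (Q94.WF.flip l x) = (1 - r l x) * g x := by
      rw [hh]
      simp only
      rw [r_flip, if_pos rfl, hg.flip_eq le_rfl]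
      ring
    show ‖h (Q94.WF.flip l x)‖ₑ ^ p + ‖h x‖ₑ ^ p = ENNReal.ofReal (2 ^ p) * ‖g x‖ₑ ^ p
    rw [e1, hh]
    simp only
    have e2 : ENNReal.ofReal (2 ^ p) * ‖g x‖ₑ ^ p = ‖2 * g x‖ₑ ^ p := by
      rw [enorm_mul, ENNReal.mul_rpow_of_nonneg _ _ hp.le, Real.enorm_eq_ofReal_abs 2,
        ENNReal.ofReal_rpow_of_nonneg (abs_nonneg _) hp.le]
      norm_num
    rw [e2]
    rcases (by unfold r; split_ifs <;> simp : r l x = 1 ∨ r l x = -1) with hr | hr
    · rw [hr]
      norm_num [hp.ne', hp]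
    · rw [hr]
      norm_num [hp.ne', hp]
  have h3 : ENNReal.ofReal (2 ^ p) = 2 * ENNReal.ofReal (2 ^ (p - 1)) := by
    have : (2 : ℝ≥0∞) = ENNReal.ofReal 2 := by norm_num
    rw [this, ← ENNReal.ofReal_mul (by norm_num)]
    congr 1
    rw [Real.rpow_sub (by norm_num), Real.rpow_one]
    ring
  rw [h3, ← two_mul, mul_assoc] at h2
  exact (ENNReal.mul_right_inj (by norm_num) (by norm_num)).1 h2

/-- the constants -/
lemma cst {p : ℝ} (hp : 0 < p) (hp1 : p ≤ 1) :
    0 < (2 : ℝ) ^ (2 * p - 1) - 2 ^ (p - 1) ∧ (2 : ℝ) ^ (2 * p - 1) - 2 ^ (p - 1) ≤ 1 ∧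
      (2 : ℝ) ^ p * 2 ^ (p - 1) = 2 ^ (2 * p - 1) := by
  have h1 : (2 : ℝ) ^ p * 2 ^ (p - 1) = 2 ^ (2 * p - 1) := by
    rw [← Real.rpow_add (by norm_num)]
    congr 1
    ring
  have h2 : 1 < (2 : ℝ) ^ p := Real.one_lt_rpow (by norm_num) hp
  have h3 : (2 : ℝ) ^ p ≤ 2 := by
    calc (2 : ℝ) ^ p ≤ 2 ^ (1 : ℝ) := Real.rpow_le_rpow_of_exponent_le (by norm_num) hp1
      _ = 2 := Real.rpow_one 2
  have h4 : 0 < (2 : ℝ) ^ (p - 1) := Real.rpow_pos_of_pos (by norm_num) _
  have h5 : (2 : ℝ) ^ (p - 1) ≤ 1 := Real.rpow_le_one_of_one_le_of_nonpos (by norm_num)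
    (by linarith)
  refine ⟨?_, ?_, h1⟩
  · rw [← h1]
    nlinarith
  · rw [← h1]
    nlinarith

theorem j1b : J1b := by
  intro p l hp hp1
  obtain ⟨hc1, hc2, hc3⟩ := cst hp hp1
  set q : ℝ := 2 ^ (p - 1) with hq
  set s : ℝ := 2 ^ (2 * p - 1) with hs
  have hq0 : 0 < q := Real.rpow_pos_of_pos (by norm_num) _
  have hs0 : 0 < s := Real.rpow_pos_of_pos (by norm_num) _
  rw [two_rpow_nat, two_rpow_nat, ← hq, ← hs]
  have hD : ∀ l : ℕ, E p (D (2 ^ l)) = ENNReal.ofReal (q ^ l) := by
    intro l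
    induction l with
    | zero =>
      have h1 : D (2 ^ 0) = fun _ => (1 : ℝ) := by
        funext x
        simp [D, w_zero]
      rw [h1, E_const hp.le]
      simp
    | succ l ih =>
      have h1 : D (2 ^ (l + 1)) = fun x => (1 + r l x) * D (2 ^ l) x := by
        funext x
        exact D_two_pow_succ l x
      rw [h1, j1a p l _ hp (dep_D le_rfl), ih, ← ENNReal.ofReal_mul hq0.le]
      congr 1
      rw [pow_succ]
      ring
  refine ⟨hD l, ?_⟩
  have hc1' : 1 ≤ 1 / (s - q) := by
    rw [le_div_iff₀ hc1]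
    linarith
  induction l with
  | zero =>
    have h1 : T (2 ^ 0) = fun _ => (1 : ℝ) := by
      funext x
      simp [T, D, Finset.sum_range_succ, w_zero]
    rw [h1, E_const hp.le, pow_zero, mul_one]
    refine ENNReal.ofReal_le_ofReal ?_
    simpa using hc1'
  | succ l ih =>
    have h1 : T (2 ^ (l + 1)) = fun x => (1 + r l x) * T (2 ^ l) x + 2 ^ l * D (2 ^ l) x := by
      funext x
      exact T_two_pow_succ l x
    have hm1 : Measurable fun x => (1 + r l x) * T (2 ^ l) x :=
      (measurable_const.add (measurable_r l)).mul (measurable_T _)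
    rw [h1]
    refine (E_add hp.le hp1 hm1).trans ?_
    rw [j1a p l _ hp (dep_T le_rfl), E_mul hp.le, hD l]
    have h2 : |(2 : ℝ) ^ l| ^ p = ((2 : ℝ) ^ p) ^ l := by
      rw [abs_of_pos (by positivity), ← Real.rpow_natCast, ← Real.rpow_natCast,
        ← Real.rpow_mul (by norm_num), ← Real.rpow_mul (by norm_num), mul_comm]
    rw [h2, ← ENNReal.ofReal_mul (by positivity), ← mul_pow, hc3]
    calc ENNReal.ofReal q * E p (T (2 ^ l)) + ENNReal.ofReal (s ^ l)
        ≤ ENNReal.ofReal q * ENNReal.ofReal (1 / (s - q) * s ^ l) + ENNReal.ofReal (s ^ l) :=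
          add_le_add (mul_le_mul_right ih _) le_rfl
      _ = ENNReal.ofReal (1 / (s - q) * s ^ (l + 1)) := by
          rw [← ENNReal.ofReal_mul hq0.le, ← ENNReal.ofReal_add (by positivity) (by positivity)]
          congr 1
          have h3 : s - q ≠ 0 := hc1.ne'
          field_simp
          ring

theorem j1c : J1c := by
  intro j
  induction j with
  | zero =>
    intro i x hi
    have h1 : i = 0 ∨ i = 1 := by omega
    rcases h1 with rfl | rfl
    · rw [T_zero, abs_zero]
      exact Ts_nonneg 0 x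
    · unfold Ts
      simp only [zero_add, Finset.sum_range_one, pow_zero]
      have : 0 ≤ 1 * |D 1 x| := by positivity
      linarith
  | succ j ih =>
    intro i x hi
    rw [Ts_succ]
    by_cases h : i < 2 ^ (j + 1)
    · have h1 := ih i x h
      have h2 : 0 ≤ |T (2 ^ (j + 1)) x| + 2 ^ (j + 1) * |D (2 ^ (j + 1)) x| := by positivity
      linarith
    · push Not at h
      obtain ⟨i', rfl⟩ := Nat.exists_eq_add_of_le h
      have hi' : i' < 2 ^ (j + 1) := by
        rw [pow_succ 2 (j + 1)] at hi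
        omega
      rw [T_add hi'.le]
      have h1 := ih i' x hi'
      have h2 : |(i' : ℝ) * D (2 ^ (j + 1)) x| ≤ 2 ^ (j + 1) * |D (2 ^ (j + 1)) x| := by
        rw [abs_mul, abs_of_nonneg (by positivity : (0 : ℝ) ≤ i')]
        refine mul_le_mul_of_nonneg_right ?_ (abs_nonneg _)
        exact_mod_cast hi'.le
      have h3 : |r (j + 1) x * T i' x| = |T i' x| := by rw [abs_mul, abs_r, one_mul]
      have h4 := abs_add_le (T (2 ^ (j + 1)) x + i' * D (2 ^ (j + 1)) x) (r (j + 1) x * T i' x)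
      have h5 := abs_add_le (T (2 ^ (j + 1)) x) (i' * D (2 ^ (j + 1)) x)
      rw [h3] at h4
      linarith

theorem j1d : J1d := by
  intro p j hp hp1
  obtain ⟨hc1, hc2, hc3⟩ := cst hp hp1
  have hlp : ∀ l : ℕ, |(2 : ℝ) ^ l| ^ p = ((2 : ℝ) ^ p) ^ l := by
    intro l
    rw [abs_of_pos (by positivity), ← Real.rpow_natCast, ← Real.rpow_natCast,
      ← Real.rpow_mul (by norm_num), ← Real.rpow_mul (by norm_num), mul_comm]
  have hmT : ∀ l : ℕ, Measurable fun x => |T (2 ^ l) x| := fun l =>
    continuous_abs.measurable.comp (measurable_T _)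
  have hmD : ∀ l : ℕ, Measurable fun x => |D (2 ^ l) x| := fun l =>
    continuous_abs.measurable.comp (measurable_D _)
  have h1 : E p (Ts j) ≤ ∑ l ∈ range (j + 1),
      E p (fun x => |T (2 ^ l) x| + 2 ^ l * |D (2 ^ l) x|) :=
    E_sum hp hp1 (range (j + 1)) (fun l x => |T (2 ^ l) x| + 2 ^ l * |D (2 ^ l) x|)
      fun l _ => (hmT l).add ((hmD l).const_mul _)
  refine h1.trans ?_
  rw [Finset.mul_sum, ENNReal.ofReal_sum_of_nonneg (fun l _ => by positivity)]
  refine Finset.sum_le_sum fun l _ => ?_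
  refine (E_add hp.le hp1 (hmT l)).trans ?_
  obtain ⟨hb1, hb2⟩ := j1b p l hp hp1
  have e1 : E p (fun x => |T (2 ^ l) x|) = E p (T (2 ^ l)) := E_congr_abs fun x => abs_abs _
  have e2 : E p (fun x => (2 : ℝ) ^ l * |D (2 ^ l) x|) =
      ENNReal.ofReal (2 ^ ((l : ℝ) * (2 * p - 1))) := by
    rw [E_mul hp.le, hlp]
    have e3 : E p (fun x => |D (2 ^ l) x|) = E p (D (2 ^ l)) := E_congr_abs fun x => abs_abs _
    rw [e3, hb1, two_rpow_nat, two_rpow_nat, ← ENNReal.ofReal_mul (by positivity), ← mul_pow, hc3]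
  rw [e1, e2, add_mul, one_mul, ENNReal.ofReal_add (by positivity) (by positivity)]
  exact add_le_add hb2 le_rfl

theorem j1e : J1e := by
  intro p n κ hp hp1
  induction n with
  | zero =>
    have h1 : C 0 κ = fun _ => 1 / ((κ : ℝ) + 1) := by
      funext x
      simp [C, D, w_zero]
    rw [h1, E_const hp.le, Finset.range_zero, Finset.sum_empty, add_zero,
      abs_of_nonneg (by positivity)]
  | succ n ih =>
    rw [Finset.sum_range_succ, ← add_assoc]
    set R : G → ℝ := fun x => ∑ t ∈ range (2 ^ n),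
      (1 / ((κ : ℝ) + 2 ^ n + (t + 1))) * D (2 ^ n + (t + 1)) x with hR
    have h1 : C (n + 1) κ = fun x => C n κ x + R x := by
      funext x
      unfold C
      rw [pow_succ, mul_two, Finset.sum_range_add, hR]
      congr 1
      refine Finset.sum_congr rfl fun t _ => ?_
      rw [← add_assoc (2 ^ n) t 1]
      push_cast
      rw [div_eq_mul_one_div, mul_comm]
      congr 2
      ring
    have h2 : ∀ x, |R x| ≤ (2 / ((κ : ℝ) + 2 ^ n)) * Ts n x := by
      intro x
      have hK0 := Ts_nonneg n x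
      have hDn : 2 ^ n * |D (2 ^ n) x| ≤ Ts n x := by
        unfold Ts
        rw [Finset.sum_range_succ]
        have h3 : 0 ≤ ∑ l ∈ range n, (|T (2 ^ l) x| + 2 ^ l * |D (2 ^ l) x|) :=
          Finset.sum_nonneg fun l _ => by positivity
        have h4 := abs_nonneg (T (2 ^ n) x)
        linarith
      have h3 := abel_anti (fun t => 1 / ((κ : ℝ) + 2 ^ n + (t + 1)))
        (fun t => D (2 ^ n + (t + 1)) x) (2 * Ts n x) (2 ^ n) (fun t _ => by
          refine one_div_le_one_div_of_le (by positivity) ?_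
          push_cast
          linarith) (by positivity) (by
          intro s hs
          have h5 : ∑ t ∈ range s, D (2 ^ n + (t + 1)) x = s * D (2 ^ n) x + r n x * T s x := by
            clear h1
            induction s with
            | zero => simp [T_zero]
            | succ s ihs =>
              rw [Finset.sum_range_succ, ihs (by omega), T_succ, D_add' hs]
              push_cast
              ring
          rw [h5]
          have h6 : |(s : ℝ) * D (2 ^ n) x| ≤ Ts n x := by
            rw [abs_mul, abs_of_nonneg (by positivity : (0 : ℝ) ≤ s)]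
            refine le_trans (mul_le_mul_of_nonneg_right ?_ (abs_nonneg _)) hDn
            exact_mod_cast hs
          have h7 : |r n x * T s x| ≤ Ts n x := by
            rw [abs_mul, abs_r, one_mul]
            refine j1c n s x ?_
            rw [pow_succ]
            have := Nat.two_pow_pos n
            omega
          exact (abs_add_le _ _).trans (by linarith))
      refine h3.trans ?_
      have h8 : 1 / ((κ : ℝ) + 2 ^ n + ((0 : ℕ) + 1)) ≤ 1 / ((κ : ℝ) + 2 ^ n) :=
        one_div_le_one_div_of_le (by positivity) (by push_cast; linarith)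
      calc 1 / ((κ : ℝ) + 2 ^ n + ((0 : ℕ) + 1)) * (2 * Ts n x)
          ≤ 1 / ((κ : ℝ) + 2 ^ n) * (2 * Ts n x) :=
            mul_le_mul_of_nonneg_right h8 (by positivity)
        _ = 2 / ((κ : ℝ) + 2 ^ n) * Ts n x := by ring
    rw [h1]
    refine (E_add hp.le hp1 (measurable_C n κ)).trans (add_le_add ih ?_)
    have h3 : E p R ≤ E p (fun x => (2 / ((κ : ℝ) + 2 ^ n)) * Ts n x) := by
      refine E_mono hp.le fun x => (h2 x).trans (le_abs_self _)
    refine h3.trans (le_of_eq ?_)
    rw [E_mul hp.le, abs_of_nonneg (by positivity)]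

theorem j1f : J1f := by
  intro l k x hk
  have hK0 := Ts_nonneg l x
  have hl0 : 0 < 2 ^ l := Nat.two_pow_pos l
  have hkr : (2 : ℝ) * 2 ^ l ≤ k := by exact_mod_cast hk
  have hl0r : (0 : ℝ) < 2 ^ l := by positivity
  set a : ℕ → ℝ := fun i => 1 / ((k : ℝ) - ((min i (2 ^ l) : ℕ) : ℝ)) with ha
  have hmin : ∀ i, ((min i (2 ^ l) : ℕ) : ℝ) ≤ 2 ^ l := by
    intro i
    have : min i (2 ^ l) ≤ 2 ^ l := min_le_right _ _
    exact_mod_cast this
  have h1 : B l k x = ∑ i ∈ range (2 ^ l), a i * D i x := by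
    unfold B
    refine Finset.sum_congr rfl fun i hi => ?_
    rw [ha]
    simp only
    rw [min_eq_left (Finset.mem_range.1 hi).le, div_eq_mul_one_div, mul_comm]
  have h2 := abel_mono a (fun i => D i x) (Ts l x) (2 ^ l)
    (fun t _ => by
      have h3 := hmin (t + 1)
      have h4 : ((min t (2 ^ l) : ℕ) : ℝ) ≤ ((min (t + 1) (2 ^ l) : ℕ) : ℝ) := by
        have : min t (2 ^ l) ≤ min (t + 1) (2 ^ l) := min_le_min_right _ (by omega)
        exact_mod_cast this
      exact one_div_le_one_div_of_le (by linarith) (by linarith)) (by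
      have h3 := hmin 0
      exact one_div_nonneg.2 (by linarith)) (by
      intro s hs
      rcases s with _ | s
      · simp [hK0]
      · have h3 : ∑ t ∈ range (s + 1), D t x = T s x := rfl
        rw [h3]
        refine j1c l s x ?_
        rw [pow_succ]
        omega)
  rw [h1]
  refine h2.trans ?_
  have h4 : a (2 ^ l) = 1 / ((k : ℝ) - 2 ^ l) := by
    rw [ha]
    simp only
    rw [min_self]
    push_cast
    rfl
  rw [h4]
  have h5 : 1 / ((k : ℝ) - 2 ^ l) ≤ 2 / k := by
    rw [div_le_div_iff₀ (by linarith) (by linarith)]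
    linarith
  calc 2 * (1 / ((k : ℝ) - 2 ^ l)) * Ts l x ≤ 2 * (2 / k) * Ts l x :=
        mul_le_mul_of_nonneg_right (mul_le_mul_of_nonneg_left h5 (by norm_num)) hK0
    _ = 4 * Ts l x / k := by ring

end Q176.LM
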