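import Pool.Agent.Q176.LM.K1

/-!
# J2a, J2b, J2c: estimates for the kernels
-/

open scoped BigOperators Topology ENNReal
open MeasureTheory Finset Filter Q94.WF Q94.LM

namespace Q176.LM

/-- the exponent `β` -/
lemma ts_le (h : J1d) {p : ℝ} (hp : 0 < p) (hp1 : p < 1) (j : ℕ) :
    E p (Ts j) ≤ ENNReal.ofReal ((1 / (2 ^ (2 * p - 1) - 2 ^ (p - 1)) + 1) * (j + 1) *
      2 ^ (max 0 (2 * p - 1) * j)) := by
  obtain ⟨hc1, hc2, hc3⟩ := cst hp hp1.le
  refine (h p j hp hp1.le).trans (ENNReal.ofReal_le_ofReal ?_)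
  rw [mul_assoc]
  refine mul_le_mul_of_nonneg_left ?_ (by positivity)
  have h1 : ∀ l ∈ range (j + 1), (2 : ℝ) ^ ((l : ℝ) * (2 * p - 1)) ≤
      2 ^ (max 0 (2 * p - 1) * j) := by
    intro l hl
    refine Real.rpow_le_rpow_of_exponent_le (by norm_num) ?_
    have hlj : (l : ℝ) ≤ j := by
      have := Finset.mem_range.1 hl
      exact_mod_cast (by omega : l ≤ j)
    calc (l : ℝ) * (2 * p - 1) ≤ l * max 0 (2 * p - 1) :=
          mul_le_mul_of_nonneg_left (le_max_right _ _) (by positivity)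
      _ ≤ j * max 0 (2 * p - 1) := mul_le_mul_of_nonneg_right hlj (le_max_left _ _)
      _ = max 0 (2 * p - 1) * j := mul_comm _ _
  calc ∑ l ∈ range (j + 1), (2 : ℝ) ^ ((l : ℝ) * (2 * p - 1))
      ≤ ∑ _l ∈ range (j + 1), (2 : ℝ) ^ (max 0 (2 * p - 1) * j) := Finset.sum_le_sum h1
    _ = ((j : ℝ) + 1) * 2 ^ (max 0 (2 * p - 1) * j) := by
        rw [Finset.sum_const, Finset.card_range, nsmul_eq_mul]
        push_cast
        rfl

theorem j2c (h : J1d) : J2c := by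
  intro p hp hp1
  obtain ⟨hc1, hc2, hc3⟩ := cst hp hp1.le
  exact ⟨_, max 0 (2 * p - 1), by positivity, max_lt hp (by linarith), le_max_left _ _,
    fun j => ts_le h hp hp1 j⟩

theorem j2a (h : J1d) (h' : J1e) : J2a := by
  intro p hp hp1
  obtain ⟨c₁, β, hc1, hβp, hβ0, hTs⟩ := j2c h p hp hp1
  set δ : ℝ := (p - β) / 2 with hδ
  have hδ0 : 0 < δ := by rw [hδ]; linarith
  have hδp : δ ≤ p := by rw [hδ]; linarith
  set q : ℝ := 2 ^ (-δ) with hq
  have hq0 : 0 < q := Real.rpow_pos_of_pos (by norm_num) _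
  have hq1 : q < 1 := Real.rpow_lt_one_of_one_lt_of_neg (by norm_num) (by linarith)
  have hsum : Summable fun j : ℕ => ((j : ℝ) + 1) * q ^ j := by
    have h1 : Summable fun j : ℕ => (j : ℝ) ^ 1 * q ^ j :=
      summable_pow_mul_geometric_of_norm_lt_one 1 (by rwa [Real.norm_eq_abs, abs_of_pos hq0])
    have h2 : Summable fun j : ℕ => q ^ j := summable_geometric_of_lt_one hq0.le hq1
    refine (h1.add h2).congr fun j => ?_
    ring
  set S : ℝ := ∑' j : ℕ, ((j : ℝ) + 1) * q ^ j with hS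
  have hSn : ∀ n : ℕ, ∑ j ∈ range n, ((j : ℝ) + 1) * q ^ j ≤ S := fun n =>
    hsum.sum_le_tsum _ fun j _ => by positivity
  have hS0 : 0 ≤ S := by simpa using hSn 0
  refine ⟨1 + 2 ^ p * c₁ * S, δ, by positivity, hδ0, fun n κ => ?_⟩
  set m : ℝ := max (κ : ℝ) 1 with hm
  have hm1 : 1 ≤ m := le_max_right _ _
  have hm0 : 0 < m := by linarith
  refine (h' p n κ hp hp1.le).trans ?_
  have e1 : (1 / ((κ : ℝ) + 1)) ^ p ≤ m ^ (-δ) := by
    have hk : m ≤ (κ : ℝ) + 1 := max_le (by linarith) (by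
      have : (0 : ℝ) ≤ κ := by positivity
      linarith)
    rw [one_div, Real.inv_rpow (by positivity), ← Real.rpow_neg (by positivity)]
    calc ((κ : ℝ) + 1) ^ (-p) ≤ m ^ (-p) := Real.rpow_le_rpow_of_nonpos hm0 hk (by linarith)
      _ ≤ m ^ (-δ) := Real.rpow_le_rpow_of_exponent_le hm1 (by linarith)
  have e2 : ∀ j : ℕ, (2 / ((κ : ℝ) + 2 ^ j)) ^ p ≤ 2 ^ p * (m ^ (-δ) * (2 : ℝ) ^ (-(p - δ) * j)) := by
    intro j
    have h2j : (1 : ℝ) ≤ 2 ^ j := one_le_pow₀ (by norm_num)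
    have hk0 : (0 : ℝ) ≤ κ := by positivity
    have hk : m ≤ (κ : ℝ) + 2 ^ j := max_le (by linarith) (by linarith)
    rw [div_eq_mul_inv, Real.mul_rpow (by norm_num) (by positivity)]
    refine mul_le_mul_of_nonneg_left ?_ (by positivity)
    rw [Real.inv_rpow (by positivity), ← Real.rpow_neg (by positivity)]
    have h3 : -p = -δ + -(p - δ) := by ring
    rw [h3, Real.rpow_add (by positivity)]
    have h4 : ((κ : ℝ) + 2 ^ j) ^ (-δ) ≤ m ^ (-δ) :=
      Real.rpow_le_rpow_of_nonpos hm0 hk (by linarith)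
    have h5 : ((κ : ℝ) + 2 ^ j) ^ (-(p - δ)) ≤ (2 : ℝ) ^ (-(p - δ) * j) := by
      rw [Real.rpow_mul (by norm_num), Real.rpow_natCast]
      calc ((κ : ℝ) + 2 ^ j) ^ (-(p - δ)) ≤ ((2 : ℝ) ^ j) ^ (-(p - δ)) :=
            Real.rpow_le_rpow_of_nonpos (by positivity) (by linarith) (by linarith)
        _ = ((2 : ℝ) ^ (-(p - δ))) ^ j := by
            rw [← Real.rpow_natCast, ← Real.rpow_natCast, ← Real.rpow_mul (by norm_num),
              ← Real.rpow_mul (by norm_num), mul_comm]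
    exact mul_le_mul h4 h5 (by positivity) (by positivity)
  calc ENNReal.ofReal ((1 / ((κ : ℝ) + 1)) ^ p) +
        ∑ j ∈ range n, ENNReal.ofReal ((2 / ((κ : ℝ) + 2 ^ j)) ^ p) * E p (Ts j)
      ≤ ENNReal.ofReal (m ^ (-δ)) +
        ∑ j ∈ range n, ENNReal.ofReal (2 ^ p * c₁ * m ^ (-δ) * (((j : ℝ) + 1) * q ^ j)) := by
        refine add_le_add (ENNReal.ofReal_le_ofReal e1) (Finset.sum_le_sum fun j _ => ?_)
        refine (mul_le_mul' (ENNReal.ofReal_le_ofReal (e2 j)) (hTs j)).trans ?_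
        rw [← ENNReal.ofReal_mul (by positivity)]
        refine ENNReal.ofReal_le_ofReal (le_of_eq ?_)
        have h6 : (2 : ℝ) ^ (-(p - δ) * j) * 2 ^ (β * j) = q ^ j := by
          rw [← Real.rpow_add (by norm_num), hq, ← Real.rpow_natCast, ← Real.rpow_mul (by norm_num)]
          congr 1
          rw [hδ]
          ring
        calc 2 ^ p * (m ^ (-δ) * (2 : ℝ) ^ (-(p - δ) * j)) * (c₁ * (j + 1) * 2 ^ (β * j))
            = 2 ^ p * c₁ * m ^ (-δ) * ((j + 1) * ((2 : ℝ) ^ (-(p - δ) * j) * 2 ^ (β * j))) := by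
              ring
          _ = _ := by rw [h6]
    _ = ENNReal.ofReal (m ^ (-δ) + 2 ^ p * c₁ * m ^ (-δ) *
          ∑ j ∈ range n, ((j : ℝ) + 1) * q ^ j) := by
        rw [← ENNReal.ofReal_sum_of_nonneg (fun j _ => by positivity),
          ← ENNReal.ofReal_add (by positivity) (by positivity), Finset.mul_sum]
    _ ≤ ENNReal.ofReal ((1 + 2 ^ p * c₁ * S) * m ^ (-δ)) := by
        refine ENNReal.ofReal_le_ofReal ?_
        have h7 : 2 ^ p * c₁ * m ^ (-δ) * ∑ j ∈ range n, ((j : ℝ) + 1) * q ^ j ≤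
            2 ^ p * c₁ * m ^ (-δ) * S := mul_le_mul_of_nonneg_left (hSn n) (by positivity)
        calc _ ≤ m ^ (-δ) + 2 ^ p * c₁ * m ^ (-δ) * S := by linarith
          _ = (1 + 2 ^ p * c₁ * S) * m ^ (-δ) := by ring

lemma ts_one (h : J1d) (j : ℕ) : E 1 (Ts j) ≤ ENNReal.ofReal (4 * 2 ^ j) := by
  refine (h 1 j one_pos le_rfl).trans (ENNReal.ofReal_le_ofReal ?_)
  have h1 : ∀ l ∈ range (j + 1), (2 : ℝ) ^ ((l : ℝ) * (2 * 1 - 1)) = 2 ^ l := by
    intro l _
    rw [show (l : ℝ) * (2 * 1 - 1) = l by ring, Real.rpow_natCast]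
  rw [Finset.sum_congr rfl h1]
  have h2 : ∑ l ∈ range (j + 1), (2 : ℝ) ^ l = 2 ^ (j + 1) - 1 := by
    have := geom_sum_eq (x := (2 : ℝ)) (by norm_num) (j + 1)
    rw [this]
    norm_num
  rw [h2]
  have h3 : (1 / ((2 : ℝ) ^ (2 * (1 : ℝ) - 1) - 2 ^ ((1 : ℝ) - 1)) + 1) = 2 := by
    have e1 : (2 : ℝ) ^ (2 * (1 : ℝ) - 1) = 2 := by
      rw [show 2 * (1 : ℝ) - 1 = 1 by norm_num, Real.rpow_one]
    have e2 : (2 : ℝ) ^ ((1 : ℝ) - 1) = 1 := by
      rw [show (1 : ℝ) - 1 = 0 by norm_num, Real.rpow_zero]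
    rw [e1, e2]
    norm_num
  rw [h3, pow_succ]
  linarith

lemma c_one (h : J1d) (h' : J1e) (n κ : ℕ) : E 1 (C n κ) ≤
    ENNReal.ofReal (1 + 8 * ∑ j ∈ range n, (2 : ℝ) ^ j / (κ + 2 ^ j)) := by
  refine (h' 1 n κ one_pos le_rfl).trans ?_
  simp only [Real.rpow_one]
  have hk0 : (0 : ℝ) ≤ κ := by positivity
  rw [Finset.mul_sum, ENNReal.ofReal_add zero_le_one (Finset.sum_nonneg fun j _ => by positivity),
    ENNReal.ofReal_sum_of_nonneg (fun j _ => by positivity)]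
  refine add_le_add (ENNReal.ofReal_le_ofReal ?_) (Finset.sum_le_sum fun j _ => ?_)
  · rw [div_le_one (by positivity)]
    linarith
  · refine (mul_le_mul_right (ts_one h j) _).trans ?_
    rw [← ENNReal.ofReal_mul (by positivity)]
    refine ENNReal.ofReal_le_ofReal (le_of_eq ?_)
    ring

theorem j2b (h : J1d) (h' : J1e) : J2b := by
  constructor
  · intro n m κ hκ hmn
    refine (c_one h h' n κ).trans (ENNReal.ofReal_le_ofReal ?_)
    have hκr : (2 : ℝ) ^ m ≤ κ := by exact_mod_cast hκ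
    have h2m : (0 : ℝ) < 2 ^ m := by positivity
    have h1 : ∀ n, m ≤ n → ∑ j ∈ range n, (2 : ℝ) ^ j / (κ + 2 ^ j) ≤ 1 + ((n : ℝ) - m) := by
      intro n hn
      induction n, hn using Nat.le_induction with
      | base =>
        have h2 : ∑ j ∈ range m, (2 : ℝ) ^ j / (κ + 2 ^ j) ≤ ∑ j ∈ range m, (2 : ℝ) ^ j / κ := by
          refine Finset.sum_le_sum fun j _ => ?_
          refine div_le_div_of_nonneg_left (by positivity) (by linarith) ?_
          have : (0 : ℝ) ≤ 2 ^ j := by positivity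
          linarith
        have h3 : ∑ j ∈ range m, (2 : ℝ) ^ j = 2 ^ m - 1 := by
          have := geom_sum_eq (x := (2 : ℝ)) (by norm_num) m
          rw [this]
          norm_num
        rw [← Finset.sum_div, h3] at h2
        have h4 : ((2 : ℝ) ^ m - 1) / κ ≤ 1 := by
          rw [div_le_one (by linarith)]
          linarith
        linarith
      | succ n hn ih =>
        rw [Finset.sum_range_succ]
        have h2 : (2 : ℝ) ^ n / (κ + 2 ^ n) ≤ 1 := by
          rw [div_le_one (by positivity)]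
          linarith
        push_cast
        linarith
    have h2 := h1 n hmn
    have h3 : (m : ℝ) ≤ n := by exact_mod_cast hmn
    linarith
  · intro n
    refine (c_one h h' n 0).trans (ENNReal.ofReal_le_ofReal ?_)
    have h1 : ∑ j ∈ range n, (2 : ℝ) ^ j / (((0 : ℕ) : ℝ) + 2 ^ j) = n := by
      have : ∀ j ∈ range n, (2 : ℝ) ^ j / (((0 : ℕ) : ℝ) + 2 ^ j) = 1 := by
        intro j _
        rw [Nat.cast_zero, zero_add, div_self (by positivity)]
      rw [Finset.sum_congr rfl this]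
      simp
    rw [h1]
    have : (0 : ℝ) ≤ n := by positivity
    linarith

end Q176.LM
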