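import Pool.Agent.Q94.LM.Stm

/-!
# Basic facts on `E`, `Dep`, `T`, and summation by parts
-/

open scoped BigOperators Topology ENNReal
open MeasureTheory Finset Filter Q94.WF Q94.LM

namespace Q176.LM

/-! ### `Dep` -/

lemma _root_.Q94.LM.Dep.flip_eq {n k : ℕ} {g : G → ℝ} (hg : Dep n g) (hk : n ≤ k) (x : G) :
    g (Q94.WF.flip k x) = g x := by
  refine hg _ _ fun i hi => ?_
  unfold Q94.WF.flip
  rw [if_neg (by omega)]

lemma _root_.Q94.LM.Dep.mono {n m : ℕ} {g : G → ℝ} (hg : Dep n g) (h : n ≤ m) : Dep m g :=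
  fun x y hxy => hg x y fun k hk => hxy k (hk.trans_le h)

lemma _root_.Q94.LM.Dep.measurable {n : ℕ} {g : G → ℝ} (hg : Dep n g) : Measurable g := by
  have h1 : g = (fun b : Fin n → Bool => g (fun i => if h : i < n then b ⟨i, h⟩ else false)) ∘
      (fun (x : G) (k : Fin n) => x k) := by
    funext x
    refine hg _ _ fun k hk => ?_
    simp [hk]
  rw [h1]
  exact (measurable_of_finite _).comp (measurable_pi_iff.2 fun k => measurable_pi_apply (k : ℕ))

lemma dep_const (n : ℕ) (c : ℝ) : Dep n fun _ => c := fun _ _ _ => rfl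

lemma dep_r {n k : ℕ} (h : k < n) : Dep n (r k) := by
  intro x y hxy
  unfold r
  rw [hxy k h]

lemma dep_w {n i : ℕ} (h : i < 2 ^ n) : Dep n (w i) := by
  intro x y hxy
  rw [w_eq h, w_eq h]
  refine Finset.prod_congr rfl fun k hk => ?_
  rw [dep_r (Finset.mem_range.1 hk) x y hxy]

lemma dep_D {n m : ℕ} (h : m ≤ 2 ^ n) : Dep n (D m) := by
  intro x y hxy
  unfold D
  refine Finset.sum_congr rfl fun i hi => ?_
  exact dep_w ((Finset.mem_range.1 hi).trans_le h) x y hxy

lemma dep_T {n m : ℕ} (h : m ≤ 2 ^ n) : Dep n (T m) := by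
  intro x y hxy
  unfold T
  refine Finset.sum_congr rfl fun i hi => ?_
  exact dep_D (by have := Finset.mem_range.1 hi; omega) x y hxy

lemma dep_P {n N : ℕ} (c : ℕ → ℝ) (h : N ≤ 2 ^ n) : Dep n (P c N) := by
  intro x y hxy
  unfold P
  refine Finset.sum_congr rfl fun i hi => ?_
  rw [dep_w ((Finset.mem_range.1 hi).trans_le h) x y hxy]

lemma measurable_T (m : ℕ) : Measurable (T m) := by
  unfold T
  exact Finset.measurable_fun_sum _ fun i _ => measurable_D i

lemma measurable_P (c : ℕ → ℝ) (N : ℕ) : Measurable (P c N) := by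
  unfold P
  exact Finset.measurable_fun_sum _ fun i _ => (measurable_w i).const_mul _

lemma measurable_Ts (j : ℕ) : Measurable (Ts j) := by
  unfold Ts
  refine Finset.measurable_fun_sum _ fun l _ => ?_
  exact (continuous_abs.measurable.comp (measurable_T _)).add
    ((continuous_abs.measurable.comp (measurable_D _)).const_mul _)

lemma measurable_C (n κ : ℕ) : Measurable (C n κ) := by
  unfold C
  exact Finset.measurable_fun_sum _ fun i _ => (measurable_D _).div_const _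

lemma measurable_A (k : ℕ) : Measurable (A k) := by
  unfold A
  exact Finset.measurable_fun_sum _ fun i _ => (measurable_D _).div_const _

lemma measurable_B (l k : ℕ) : Measurable (B l k) := by
  unfold B
  exact Finset.measurable_fun_sum _ fun i _ => (measurable_D _).div_const _

/-! ### `E` -/

lemma E_add {p : ℝ} (hp : 0 ≤ p) (hp1 : p ≤ 1) {K₁ K₂ : G → ℝ} (h₁ : Measurable K₁) :
    E p (fun x => K₁ x + K₂ x) ≤ E p K₁ + E p K₂ := by
  unfold E
  rw [← lintegral_add_left (h₁.enorm.pow_const p)]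
  refine lintegral_mono fun x => ?_
  exact (ENNReal.rpow_le_rpow (enorm_add_le _ _) hp).trans
    (ENNReal.rpow_add_le_add_rpow _ _ hp hp1)

lemma E_mono {p : ℝ} (hp : 0 ≤ p) {K₁ K₂ : G → ℝ} (h : ∀ x, |K₁ x| ≤ |K₂ x|) :
    E p K₁ ≤ E p K₂ := by
  unfold E
  refine lintegral_mono fun x => ENNReal.rpow_le_rpow ?_ hp
  rw [Real.enorm_eq_ofReal_abs, Real.enorm_eq_ofReal_abs]
  exact ENNReal.ofReal_le_ofReal (h x)

lemma E_congr_abs {p : ℝ} {K₁ K₂ : G → ℝ} (h : ∀ x, |K₁ x| = |K₂ x|) :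
    E p K₁ = E p K₂ := by
  unfold E
  refine lintegral_congr fun x => ?_
  rw [Real.enorm_eq_ofReal_abs, Real.enorm_eq_ofReal_abs, h x]

lemma E_mul {p : ℝ} (hp : 0 ≤ p) (c : ℝ) (K : G → ℝ) :
    E p (fun x => c * K x) = ENNReal.ofReal (|c| ^ p) * E p K := by
  unfold E
  rw [← lintegral_const_mul' _ _ ENNReal.ofReal_ne_top]
  refine lintegral_congr fun x => ?_
  rw [enorm_mul, ENNReal.mul_rpow_of_nonneg _ _ hp, Real.enorm_eq_ofReal_abs c,
    ENNReal.ofReal_rpow_of_nonneg (abs_nonneg _) hp]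

lemma E_const {p : ℝ} (hp : 0 ≤ p) (c : ℝ) : E p (fun _ => c) = ENNReal.ofReal (|c| ^ p) := by
  unfold E
  rw [lintegral_const, measure_univ, mul_one, Real.enorm_eq_ofReal_abs,
    ENNReal.ofReal_rpow_of_nonneg (abs_nonneg _) hp]

lemma E_sum {p : ℝ} (hp : 0 < p) (hp1 : p ≤ 1) {ι : Type*} (s : Finset ι) (K : ι → G → ℝ)
    (h : ∀ i ∈ s, Measurable (K i)) : E p (fun x => ∑ i ∈ s, K i x) ≤ ∑ i ∈ s, E p (K i) := by
  classical
  induction s using Finset.induction_on with
  | empty =>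
    simp only [Finset.sum_empty]
    rw [E_const hp.le, abs_zero, Real.zero_rpow hp.ne', ENNReal.ofReal_zero]
  | insert a s ha ih =>
    simp only [Finset.sum_insert ha]
    refine (E_add hp.le hp1 (h a (Finset.mem_insert_self _ _))).trans ?_
    exact add_le_add le_rfl (ih fun i hi => h i (Finset.mem_insert_of_mem hi))

lemma E_flip {p : ℝ} (k : ℕ) {K : G → ℝ} (h : Measurable K) :
    E p (fun x => K (Q94.WF.flip k x)) = E p K := by
  unfold E
  exact (mp_flip k).lintegral_comp (h.enorm.pow_const p)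

/-! ### The sums `T` -/

lemma T_zero (x : G) : T 0 x = 0 := by simp [T, D_zero]

lemma T_succ (i : ℕ) (x : G) : T (i + 1) x = T i x + D (i + 1) x := by
  unfold T
  rw [Finset.sum_range_succ]

lemma D_add' {l t : ℕ} (ht : t ≤ 2 ^ l) (x : G) :
    D (2 ^ l + t) x = D (2 ^ l) x + r l x * D t x := by
  have := D_add (t := l) (m := t) 1 ht x
  rwa [mul_one, w_two_pow] at this

lemma T_add {l i : ℕ} (hi : i ≤ 2 ^ l) (x : G) :
    T (2 ^ l + i) x = T (2 ^ l) x + i * D (2 ^ l) x + r l x * T i x := by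
  induction i with
  | zero => simp [T_zero]
  | succ i ih =>
    rw [← add_assoc, T_succ, ih (by omega), T_succ, add_assoc (2 ^ l) i 1, D_add' hi]
    push_cast
    ring

lemma T_two_pow_succ (l : ℕ) (x : G) :
    T (2 ^ (l + 1)) x = (1 + r l x) * T (2 ^ l) x + 2 ^ l * D (2 ^ l) x := by
  rw [pow_succ, mul_two, T_add le_rfl]
  push_cast
  ring

lemma Ts_nonneg (j : ℕ) (x : G) : 0 ≤ Ts j x :=
  Finset.sum_nonneg fun l _ => by positivity

lemma Ts_succ (j : ℕ) (x : G) :
    Ts (j + 1) x = Ts j x + (|T (2 ^ (j + 1)) x| + 2 ^ (j + 1) * |D (2 ^ (j + 1)) x|) := by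
  unfold Ts
  rw [Finset.sum_range_succ _ (j + 1)]

/-! ### Summation by parts -/

lemma abel_aux (a b : ℕ → ℝ) (K : ℝ) (M : ℕ)
    (hB : ∀ s ≤ M, |∑ t ∈ range s, b t| ≤ K) :
    |∑ t ∈ range M, a t * b t - a M * ∑ t ∈ range M, b t| ≤
      (∑ t ∈ range M, |a t - a (t + 1)|) * K := by
  induction M with
  | zero => simp
  | succ M ih =>
    have h1 := ih fun s hs => hB s (by omega)
    have h2 := hB (M + 1) le_rfl
    have h3 : ∑ t ∈ range (M + 1), a t * b t - a (M + 1) * ∑ t ∈ range (M + 1), b t =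
        (∑ t ∈ range M, a t * b t - a M * ∑ t ∈ range M, b t) +
          (a M - a (M + 1)) * ∑ t ∈ range (M + 1), b t := by
      rw [Finset.sum_range_succ (fun t => a t * b t), Finset.sum_range_succ b]
      ring
    rw [h3, Finset.sum_range_succ (fun t => |a t - a (t + 1)|), add_mul]
    refine (abs_add_le _ _).trans (add_le_add h1 ?_)
    rw [abs_mul]
    exact mul_le_mul_of_nonneg_left h2 (abs_nonneg _)

lemma abel_anti (a b : ℕ → ℝ) (K : ℝ) (M : ℕ) (ha : ∀ t < M, a (t + 1) ≤ a t) (h0 : 0 ≤ a M)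
    (hB : ∀ s ≤ M, |∑ t ∈ range s, b t| ≤ K) : |∑ t ∈ range M, a t * b t| ≤ a 0 * K := by
  have h1 := abel_aux a b K M hB
  have h2 : ∑ t ∈ range M, |a t - a (t + 1)| = a 0 - a M := by
    rw [← Finset.sum_range_sub' a M]
    refine Finset.sum_congr rfl fun t ht => ?_
    exact abs_of_nonneg (by have := ha t (Finset.mem_range.1 ht); linarith)
  rw [h2] at h1
  have h3 : |a M * ∑ t ∈ range M, b t| ≤ a M * K := by
    rw [abs_mul, abs_of_nonneg h0]
    exact mul_le_mul_of_nonneg_left (hB M le_rfl) h0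
  have h4 := abs_add_le (∑ t ∈ range M, a t * b t - a M * ∑ t ∈ range M, b t)
    (a M * ∑ t ∈ range M, b t)
  rw [sub_add_cancel] at h4
  linarith

lemma abel_mono (a b : ℕ → ℝ) (K : ℝ) (M : ℕ) (ha : ∀ t < M, a t ≤ a (t + 1)) (h0 : 0 ≤ a 0)
    (hB : ∀ s ≤ M, |∑ t ∈ range s, b t| ≤ K) : |∑ t ∈ range M, a t * b t| ≤ 2 * a M * K := by
  have h1 := abel_aux a b K M hB
  have hK : 0 ≤ K := (abs_nonneg _).trans (hB 0 (Nat.zero_le _))
  have h2 : ∑ t ∈ range M, |a t - a (t + 1)| = a M - a 0 := by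
    rw [← Finset.sum_range_sub a M]
    refine Finset.sum_congr rfl fun t ht => ?_
    rw [abs_sub_comm]
    exact abs_of_nonneg (by have := ha t (Finset.mem_range.1 ht); linarith)
  have hM : 0 ≤ a M := by
    have h5 : 0 ≤ a M - a 0 := by
      rw [← h2]
      exact Finset.sum_nonneg fun _ _ => abs_nonneg _
    linarith
  rw [h2] at h1
  have h3 : |a M * ∑ t ∈ range M, b t| ≤ a M * K := by
    rw [abs_mul, abs_of_nonneg hM]
    exact mul_le_mul_of_nonneg_left (hB M le_rfl) hM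
  have h4 := abs_add_le (∑ t ∈ range M, a t * b t - a M * ∑ t ∈ range M, b t)
    (a M * ∑ t ∈ range M, b t)
  rw [sub_add_cancel] at h4
  nlinarith

end Q176.LM
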