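import Pool.Agent.Q176.LM.U

/-!
# J4a: convolutions of functions of the first `J` digits in `L_p`, `p ≤ 1`
-/

open scoped BigOperators Topology ENNReal
open MeasureTheory Finset Filter Q94.WF Q94.LM

namespace Q176.LM

lemma add_comm' (x y : G) : add x y = add y x := by
  funext i
  unfold add
  exact Bool.xor_comm _ _

lemma measurable_add_right (x : G) : Measurable (add x) := by
  rw [measurable_pi_iff]
  intro i
  exact (measurable_of_finite (fun b : Bool => xor (x i) b)).comp (measurable_pi_apply i)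

lemma measurable_add_prod : Measurable fun q : G × G => add q.1 q.2 := by
  rw [measurable_pi_iff]
  intro i
  have h1 : Measurable fun q : G × G => (q.1 i, q.2 i) :=
    ((measurable_pi_apply i).comp measurable_fst).prodMk
      ((measurable_pi_apply i).comp measurable_snd)
  exact (measurable_of_finite (fun b : Bool × Bool => xor b.1 b.2)).comp h1

lemma map_add (x : G) : μ.map (add x) = μ := by
  have h := Measure.infinitePi_map_pi (fun _ : ℕ => coin)
    (f := fun i (b : Bool) => xor (x i) b) (fun i => measurable_of_finite _)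
  have h2 : (fun i => coin.map (fun b : Bool => xor (x i) b)) = fun _ : ℕ => coin := by
    funext i
    cases hx : x i
    · simp
    · ext s hs
      rw [Measure.map_apply (measurable_of_finite _) hs]
      unfold coin
      rw [Measure.smul_apply, Measure.smul_apply]
      congr 1
      have : (fun b : Bool => xor true b) ⁻¹' s = (Equiv.boolNot) ⁻¹' s := by
        ext b
        simp
      rw [this]
      rw [Measure.count_apply (by measurability), Measure.count_apply hs]
      congr 1
      exact_mod_cast Set.encard_preimage_of_bijective Equiv.boolNot.bijective s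
  rw [h2] at h
  exact h

lemma mp_add (x : G) : MeasurePreserving (add x) μ μ := ⟨measurable_add_right x, map_add x⟩

lemma meas_of_dep {n : ℕ} {h : G → ℝ≥0∞} (hg : ∀ x y : G, (∀ k < n, x k = y k) → h x = h y) :
    Measurable h := by
  have h1 : h = (fun b : Fin n → Bool => h (fun i => if h : i < n then b ⟨i, h⟩ else false)) ∘
      (fun (x : G) (k : Fin n) => x k) := by
    funext x
    refine hg _ _ fun k hk => ?_
    simp [hk]
  rw [h1]
  exact (measurable_of_finite _).comp (measurable_pi_iff.2 fun k => measurable_pi_apply (k : ℕ))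

/-- the reverse Hölder inequality for functions of finitely many digits -/
lemma rev_holder {p : ℝ} (hp : 0 < p) (hp1 : p ≤ 1) (J : ℕ) :
    ∀ h : G → ℝ≥0∞, (∀ x y : G, (∀ k < J, x k = y k) → h x = h y) →
      (∫⁻ x, h x ∂μ) ^ p ≤ ((2 : ℝ≥0∞) ^ (1 - p)) ^ J * ∫⁻ x, h x ^ p ∂μ := by
  induction J with
  | zero =>
    intro h hh
    have h1 : h = fun _ => h (fun _ => false) := by
      funext x
      exact hh _ _ fun k hk => by omega
    rw [h1]
    simp
  | succ J ih =>
    intro h hh
    have hm : Measurable h := meas_of_dep hh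
    set h' : G → ℝ≥0∞ := fun x => 2⁻¹ * (h x + h (Q94.WF.flip J x)) with hh'
    have hdep : ∀ x y : G, (∀ k < J, x k = y k) → h' x = h' y := by
      intro x y hxy
      rw [hh']
      simp only
      by_cases hJ : x J = y J
      · have e1 : h x = h y := hh _ _ fun k hk => by
          rcases Nat.lt_succ_iff_lt_or_eq.1 hk with h | h
          · exact hxy k h
          · rw [h]; exact hJ
        have e2 : h (Q94.WF.flip J x) = h (Q94.WF.flip J y) := hh _ _ fun k hk => by
          unfold Q94.WF.flip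
          rcases Nat.lt_succ_iff_lt_or_eq.1 hk with h | h
          · rw [if_neg (by omega), if_neg (by omega)]
            exact hxy k h
          · rw [if_pos h, if_pos h, h, hJ]
        rw [e1, e2]
      · have hJ' : x J = !(y J) := by
          cases h1 : x J <;> cases h2 : y J <;> simp_all
        have e1 : h x = h (Q94.WF.flip J y) := hh _ _ fun k hk => by
          unfold Q94.WF.flip
          rcases Nat.lt_succ_iff_lt_or_eq.1 hk with h | h
          · rw [if_neg (by omega)]
            exact hxy k h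
          · rw [if_pos h, h, hJ']
        have e2 : h (Q94.WF.flip J x) = h y := hh _ _ fun k hk => by
          unfold Q94.WF.flip
          rcases Nat.lt_succ_iff_lt_or_eq.1 hk with h | h
          · rw [if_neg (by omega)]
            exact hxy k h
          · rw [if_pos h, h, hJ', Bool.not_not]
        rw [e1, e2, add_comm]
    have hint : ∫⁻ x, h' x ∂μ = ∫⁻ x, h x ∂μ := by
      rw [hh', lintegral_const_mul' _ _ (by norm_num), lintegral_add_left hm,
        (mp_flip J).lintegral_comp hm, ← two_mul, ← mul_assoc, ENNReal.inv_mul_cancel (by norm_num)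
        (by norm_num), one_mul]
    have hpow : ∫⁻ x, h' x ^ p ∂μ ≤ (2 : ℝ≥0∞) ^ (1 - p) * ∫⁻ x, h x ^ p ∂μ := by
      have h1 : ∀ x, h' x ^ p ≤ (2 : ℝ≥0∞)⁻¹ ^ p * (h x ^ p + h (Q94.WF.flip J x) ^ p) := by
        intro x
        rw [hh']
        simp only
        rw [ENNReal.mul_rpow_of_nonneg _ _ hp.le]
        exact mul_le_mul_right (ENNReal.rpow_add_le_add_rpow _ _ hp.le hp1) _
      refine (lintegral_mono h1).trans (le_of_eq ?_)
      rw [lintegral_const_mul' _ _ (ENNReal.rpow_ne_top_of_nonneg hp.le (by norm_num)),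
        lintegral_add_left (hm.pow_const p), (mp_flip J).lintegral_comp (hm.pow_const p),
        ← two_mul, ← mul_assoc]
      congr 1
      rw [ENNReal.inv_rpow, ENNReal.rpow_sub _ _ (by norm_num) (by norm_num), ENNReal.rpow_one,
        mul_comm, div_eq_mul_inv]
    calc (∫⁻ x, h x ∂μ) ^ p = (∫⁻ x, h' x ∂μ) ^ p := by rw [hint]
      _ ≤ ((2 : ℝ≥0∞) ^ (1 - p)) ^ J * ∫⁻ x, h' x ^ p ∂μ := ih h' hdep
      _ ≤ ((2 : ℝ≥0∞) ^ (1 - p)) ^ J * ((2 : ℝ≥0∞) ^ (1 - p) * ∫⁻ x, h x ^ p ∂μ) :=
          mul_le_mul_right hpow _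
      _ = ((2 : ℝ≥0∞) ^ (1 - p)) ^ (J + 1) * ∫⁻ x, h x ^ p ∂μ := by
          rw [pow_succ]
          ring

theorem j4a : J4a := by
  intro p J K g hp hp1 hK hg
  have hmK := hK.measurable
  have hmg := hg.measurable
  have hcst : ENNReal.ofReal (2 ^ ((J : ℝ) * (1 - p))) = ((2 : ℝ≥0∞) ^ (1 - p)) ^ J := by
    rw [mul_comm (J : ℝ), Real.rpow_mul (by norm_num), Real.rpow_natCast,
      ENNReal.ofReal_pow (by positivity), ← ENNReal.ofReal_rpow_of_nonneg (by norm_num)
      (by linarith)]
    norm_num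
  have h1 : ∀ x, ‖conv K g x‖ₑ ^ p ≤
      ((2 : ℝ≥0∞) ^ (1 - p)) ^ J * ∫⁻ t, ‖K (add x t)‖ₑ ^ p * ‖g t‖ₑ ^ p ∂μ := by
    intro x
    have h2 : ‖conv K g x‖ₑ ≤ ∫⁻ t, ‖K (add x t) * g t‖ₑ ∂μ := enorm_integral_le_lintegral_enorm _
    refine (ENNReal.rpow_le_rpow h2 hp.le).trans ?_
    refine (rev_holder hp hp1 J (fun t => ‖K (add x t) * g t‖ₑ) ?_).trans (le_of_eq ?_)
    · intro s t hst
      have e1 : K (add x s) = K (add x t) := hK _ _ fun k hk => by
        unfold add
        rw [hst k hk]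
      show ‖K (add x s) * g s‖ₑ = ‖K (add x t) * g t‖ₑ
      rw [e1, hg s t hst]
    · congr 1
      refine lintegral_congr fun t => ?_
      rw [enorm_mul, ENNReal.mul_rpow_of_nonneg _ _ hp.le]
  have hmp : Measurable fun q : G × G => ‖K (add q.1 q.2)‖ₑ ^ p * ‖g q.2‖ₑ ^ p :=
    ((hmK.comp measurable_add_prod).enorm.pow_const p).mul
      ((hmg.comp measurable_snd).enorm.pow_const p)
  rw [hcst]
  have hne : ((2 : ℝ≥0∞) ^ (1 - p)) ^ J ≠ ∞ :=
    ENNReal.pow_ne_top (ENNReal.rpow_ne_top_of_nonneg (by linarith) (by norm_num))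
  calc E p (conv K g) ≤ ∫⁻ x, ((2 : ℝ≥0∞) ^ (1 - p)) ^ J *
        ∫⁻ t, ‖K (add x t)‖ₑ ^ p * ‖g t‖ₑ ^ p ∂μ ∂μ := lintegral_mono h1
    _ = ((2 : ℝ≥0∞) ^ (1 - p)) ^ J *
        ∫⁻ x, ∫⁻ t, ‖K (add x t)‖ₑ ^ p * ‖g t‖ₑ ^ p ∂μ ∂μ := lintegral_const_mul' _ _ hne
    _ = ((2 : ℝ≥0∞) ^ (1 - p)) ^ J *
        ∫⁻ t, ∫⁻ x, ‖K (add x t)‖ₑ ^ p * ‖g t‖ₑ ^ p ∂μ ∂μ := by
        rw [lintegral_lintegral_swap hmp.aemeasurable]
    _ = ((2 : ℝ≥0∞) ^ (1 - p)) ^ J * ∫⁻ t, E p K * ‖g t‖ₑ ^ p ∂μ := by
        congr 1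
        refine lintegral_congr fun t => ?_
        have hm1 : Measurable fun x => ‖K (add x t)‖ₑ ^ p := by
          have : (fun x => ‖K (add x t)‖ₑ ^ p) = fun x => ‖K (add t x)‖ₑ ^ p := by
            funext x
            rw [add_comm']
          rw [this]
          exact (hmK.comp (measurable_add_right t)).enorm.pow_const p
        rw [lintegral_mul_const _ hm1]
        congr 1
        have e1 : ∀ x, ‖K (add x t)‖ₑ ^ p = (fun y => ‖K y‖ₑ ^ p) (add t x) := by
          intro x
          rw [add_comm']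
        rw [lintegral_congr e1]
        exact (mp_add t).lintegral_comp (hmK.enorm.pow_const p)
    _ = ((2 : ℝ≥0∞) ^ (1 - p)) ^ J * E p K * E p g := by
        rw [lintegral_const_mul _ (hmg.enorm.pow_const p), mul_assoc]
        rfl

end Q176.LM
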