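import Pool.Agent.Q176.LM.U

/-!
# J4b: weak type (1,1) of dyadic martingale transforms by Burkholder's function
-/

open scoped BigOperators Topology ENNReal
open MeasureTheory Finset Filter Q94.WF Q94.LM

namespace Q176.LM

/-- Burkholder's function -/
noncomputable def bu (x y : ℝ) : ℝ := if |x| + |y| ≤ 1 then y ^ 2 - x ^ 2 else 1 - 2 * |x|

lemma bu_le (x y : ℝ) : bu x y ≤ 1 - 2 * |x| := by
  unfold bu
  split_ifs with h
  · have h1 : y ^ 2 ≤ (1 - |x|) ^ 2 := by
      rw [← sq_abs y]
      exact pow_le_pow_left₀ (abs_nonneg _) (by linarith) 2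
    have h2 : (1 - |x|) ^ 2 = 1 - 2 * |x| + x ^ 2 := by
      rw [← sq_abs x]
      ring
    linarith
  · exact le_rfl

lemma bu_ge (x y : ℝ) : (if 1 ≤ |y| then 1 else 0) - 2 * |x| ≤ bu x y := by
  have hx := abs_nonneg x
  have hy := abs_nonneg y
  unfold bu
  split_ifs with h1 h2 h2
  · have e1 : |x| = 0 := by linarith
    have e2 : |y| = 1 := by linarith
    rw [← sq_abs x, ← sq_abs y, e1, e2]
    norm_num
  · linarith
  · rw [← sq_abs x, ← sq_abs y]
    nlinarith
  · linarith

lemma bu_zero (x : ℝ) : bu x 0 ≤ 0 := by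
  unfold bu
  rw [abs_zero, add_zero]
  split_ifs with h
  · nlinarith [sq_nonneg x]
  · push Not at h
    linarith

lemma bu_half {x y h k : ℝ} (hk : |k| ≤ |h|) (hxy : |x| + |y| ≤ 1) :
    bu (x + h) (y + k) ≤ y ^ 2 - x ^ 2 + 2 * y * k - 2 * x * h := by
  have hk2 : k ^ 2 ≤ h ^ 2 := sq_le_sq.2 hk
  unfold bu
  split_ifs with h1
  · nlinarith
  · push Not at h1
    rcases lt_or_ge |x + h| 1 with h2 | h2
    · have h3 : (1 - |x + h|) ^ 2 ≤ (y + k) ^ 2 := by
        rw [← sq_abs (y + k)]
        exact pow_le_pow_left₀ (by linarith) (by linarith) 2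
      have h4 : (1 - |x + h|) ^ 2 = 1 - 2 * |x + h| + (x + h) ^ 2 := by
        rw [← sq_abs (x + h)]
        ring
      nlinarith
    · have h3 : |x + h| ≤ |x| + |h| := abs_add_le _ _
      have h4 : (|x + h| - 1) ^ 2 ≤ (|h| - |y|) ^ 2 :=
        pow_le_pow_left₀ (by linarith) (by linarith) 2
      have h5 : (|x + h| - 1) ^ 2 = 1 - 2 * |x + h| + (x + h) ^ 2 := by
        rw [← sq_abs (x + h)]
        ring
      have h6 : (|h| - |y|) ^ 2 = h ^ 2 + y ^ 2 - 2 * (|y| * |h|) := by
        rw [← sq_abs h, ← sq_abs y]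
        ring
      have h7 : -(|y| * |h|) ≤ y * k := by
        have h8 : |y * k| ≤ |y| * |h| := by
          rw [abs_mul]
          exact mul_le_mul_of_nonneg_left hk (abs_nonneg _)
        have := neg_abs_le (y * k)
        linarith
      nlinarith

lemma bu_conc {x y h k : ℝ} (hk : |k| ≤ |h|) :
    bu (x + h) (y + k) + bu (x - h) (y - k) ≤ 2 * bu x y := by
  by_cases hxy : |x| + |y| ≤ 1
  · have h1 := bu_half hk hxy
    have h2 := bu_half (h := -h) (k := -k) (by rwa [abs_neg, abs_neg]) hxy
    rw [← sub_eq_add_neg, ← sub_eq_add_neg] at h2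
    have h3 : bu x y = y ^ 2 - x ^ 2 := by rw [bu, if_pos hxy]
    rw [h3]
    linarith
  · have h1 := bu_le (x + h) (y + k)
    have h2 := bu_le (x - h) (y - k)
    have h3 : bu x y = 1 - 2 * |x| := by rw [bu, if_neg hxy]
    have h4 : 2 * |x| ≤ |x + h| + |x - h| := by
      have := abs_add_le (x + h) (x - h)
      have e : x + h + (x - h) = 2 * x := by ring
      rw [e, abs_mul, abs_two] at this
      exact this
    rw [h3]
    linarith

lemma abs_bu (x y : ℝ) : |bu x y| ≤ 1 + 2 * |x| := by
  have hx := abs_nonneg x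
  have h1 := bu_le x y
  have h2 := bu_ge x y
  have h3 : (0 : ℝ) ≤ if 1 ≤ |y| then 1 else 0 := by split_ifs <;> norm_num
  rw [abs_le]
  constructor <;> linarith

lemma measurable_bu : Measurable fun q : ℝ × ℝ => bu q.1 q.2 := by
  unfold bu
  refine Measurable.ite ?_ (by fun_prop) (by fun_prop)
  exact (isClosed_le (by fun_prop) continuous_const).measurableSet

lemma P_split (c : ℕ → ℝ) (n : ℕ) (x : G) : P c (2 ^ (n + 1)) x =
    P c (2 ^ n) x + r n x * ∑ i ∈ range (2 ^ n), c (2 ^ n + i) * w i x := by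
  unfold P
  rw [pow_succ, mul_two, Finset.sum_range_add, Finset.mul_sum]
  congr 1
  refine Finset.sum_congr rfl fun i hi => ?_
  have := w_add (t := n) 1 (Finset.mem_range.1 hi) x
  rw [mul_one, w_two_pow] at this
  rw [this]
  ring

lemma abs_P (c : ℕ → ℝ) (N : ℕ) (x : G) : |P c N x| ≤ ∑ i ∈ range N, |c i| := by
  unfold P
  refine (Finset.abs_sum_le_sum_abs _ _).trans (Finset.sum_le_sum fun i _ => ?_)
  rw [abs_mul, abs_w, mul_one]

lemma measurable_Tr (v c : ℕ → ℝ) (J : ℕ) : Measurable (Tr v c J) := by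
  unfold Tr
  exact Finset.measurable_fun_sum _ fun j _ => ((measurable_P _ _).sub (measurable_P _ _)).const_mul _

lemma dep_Tr (v c : ℕ → ℝ) (J : ℕ) : Dep J (Tr v c J) := by
  intro x y hxy
  unfold Tr
  refine Finset.sum_congr rfl fun j hj => ?_
  have hj' := Finset.mem_range.1 hj
  rw [dep_P c (Nat.pow_le_pow_right (by norm_num) (by omega : j + 1 ≤ J)) x y hxy,
    dep_P c (Nat.pow_le_pow_right (by norm_num) (by omega : j ≤ J)) x y hxy]

theorem j4b : J4b := by
  intro J c v t ht hv
  have hint : ∀ n, Integrable (fun x => bu (P c (2 ^ n) x / t) (Tr v c n x / t)) μ := by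
    intro n
    refine Integrable.of_bound (C := 1 + 2 * ((∑ i ∈ range (2 ^ n), |c i|) / t)) ?_
      (Eventually.of_forall fun x => ?_)
    · exact (measurable_bu.comp (((measurable_P c _).div_const t).prodMk
        ((measurable_Tr v c n).div_const t))).aestronglyMeasurable
    · rw [Real.norm_eq_abs]
      refine (abs_bu _ _).trans ?_
      rw [abs_div, abs_of_pos ht]
      have := div_le_div_of_nonneg_right (abs_P c (2 ^ n) x) ht.le
      linarith
  have hstep : ∀ n, ∫ x, bu (P c (2 ^ (n + 1)) x / t) (Tr v c (n + 1) x / t) ∂μ ≤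
      ∫ x, bu (P c (2 ^ n) x / t) (Tr v c n x / t) ∂μ := by
    intro n
    set F : G → ℝ := fun x => bu (P c (2 ^ (n + 1)) x / t) (Tr v c (n + 1) x / t) with hF
    set d : G → ℝ := fun x => ∑ i ∈ range (2 ^ n), c (2 ^ n + i) * w i x with hd
    have hdd : Dep n d := by
      intro x y hxy
      rw [hd]
      refine Finset.sum_congr rfl fun i hi => ?_
      rw [dep_w (Finset.mem_range.1 hi) x y hxy]
    have hFe : ∀ x, F x = bu (P c (2 ^ n) x / t + r n x * d x / t)
        (Tr v c n x / t + v n * (r n x * d x / t)) := by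
      intro x
      rw [hF]
      simp only
      have h1 : Tr v c (n + 1) x = Tr v c n x + v n * (P c (2 ^ (n + 1)) x - P c (2 ^ n) x) := by
        unfold Tr
        rw [Finset.sum_range_succ]
      rw [h1, P_split]
      congr 1
      · rw [add_div]
      · rw [add_sub_cancel_left, add_div, mul_div_assoc]
    have hflip : ∫ x, F (Q94.WF.flip n x) ∂μ = ∫ x, F x ∂μ := by
      conv_rhs => rw [← map_flip n]
      rw [integral_map (measurable_flip n).aemeasurable]
      exact (measurable_bu.comp (((measurable_P c _).div_const t).prodMk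
        ((measurable_Tr v c (n + 1)).div_const t))).aestronglyMeasurable
    have hintF : Integrable F μ := hint (n + 1)
    have hintF' : Integrable (fun x => F (Q94.WF.flip n x)) μ :=
      (mp_flip n).integrable_comp_of_integrable hintF
    have h2 : ∫ x, (F x + F (Q94.WF.flip n x)) ∂μ ≤
        ∫ x, 2 * bu (P c (2 ^ n) x / t) (Tr v c n x / t) ∂μ := by
      refine integral_mono (hintF.add hintF') ((hint n).const_mul 2) fun x => ?_
      show F x + F (Q94.WF.flip n x) ≤ _
      rw [hFe, hFe, (dep_P c le_rfl).flip_eq le_rfl, (dep_Tr v c n).flip_eq le_rfl,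
        hdd.flip_eq le_rfl, r_flip, if_pos rfl]
      have h3 := bu_conc (x := P c (2 ^ n) x / t) (y := Tr v c n x / t) (h := r n x * d x / t)
        (k := v n * (r n x * d x / t)) (by
          rw [abs_mul]
          calc |v n| * |r n x * d x / t| ≤ 1 * |r n x * d x / t| :=
                mul_le_mul_of_nonneg_right (hv n) (abs_nonneg _)
            _ = _ := one_mul _)
      have e1 : P c (2 ^ n) x / t - r n x * d x / t = P c (2 ^ n) x / t + -r n x * d x / t := by
        ring
      have e2 : Tr v c n x / t - v n * (r n x * d x / t) =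
          Tr v c n x / t + v n * (-r n x * d x / t) := by ring
      rw [e1, e2] at h3
      exact h3
    rw [integral_add hintF hintF', hflip, integral_const_mul] at h2
    linarith
  have hle : ∀ n, ∫ x, bu (P c (2 ^ n) x / t) (Tr v c n x / t) ∂μ ≤ 0 := by
    intro n
    induction n with
    | zero =>
      refine integral_nonpos fun x => ?_
      have : Tr v c 0 x = 0 := by simp [Tr]
      show bu _ (Tr v c 0 x / t) ≤ 0
      rw [this, zero_div]
      exact bu_zero _
    | succ n ih => exact (hstep n).trans ih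
  -- the lower bound
  set A : Set G := {x | t ≤ |Tr v c J x|} with hA
  have hAm : MeasurableSet A :=
    measurableSet_le measurable_const (continuous_abs.measurable.comp (measurable_Tr v c J))
  have hPi : Integrable (fun x => |P c (2 ^ J) x|) μ := by
    refine Integrable.of_bound (C := ∑ i ∈ range (2 ^ J), |c i|)
      (continuous_abs.measurable.comp (measurable_P c _)).aestronglyMeasurable
      (Eventually.of_forall fun x => ?_)
    rw [Real.norm_eq_abs, abs_abs]
    exact abs_P c _ x
  have h1 : ∫ x, (A.indicator (fun _ => (1 : ℝ)) x - 2 * (|P c (2 ^ J) x| / t)) ∂μ ≤ 0 := by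
    refine le_trans (integral_mono ?_ (hint J) fun x => ?_) (hle J)
    · exact ((integrable_const (1 : ℝ)).indicator hAm).sub ((hPi.div_const t).const_mul 2)
    · have h2 := bu_ge (P c (2 ^ J) x / t) (Tr v c J x / t)
      rw [abs_div, abs_div, abs_of_pos ht] at h2
      refine le_trans (le_of_eq ?_) h2
      show A.indicator (fun _ => (1 : ℝ)) x - 2 * (|P c (2 ^ J) x| / t) = _
      congr 1
      by_cases hx : x ∈ A
      · have hx' : 1 ≤ |Tr v c J x| / t := (one_le_div ht).2 hx
        rw [Set.indicator_of_mem hx, if_pos hx']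
      · have hx' : ¬ 1 ≤ |Tr v c J x| / t := fun h => hx ((one_le_div ht).1 h)
        rw [Set.indicator_of_notMem hx, if_neg hx']
  have hind : ∫ x, A.indicator (fun _ => (1 : ℝ)) x ∂μ = μ.real A := by
    rw [integral_indicator_const _ hAm, smul_eq_mul, mul_one]
  rw [integral_sub ((integrable_const (1 : ℝ)).indicator hAm) ((hPi.div_const t).const_mul 2),
    hind, integral_const_mul, integral_div] at h1
  have h2 : t * μ.real A ≤ 2 * ∫ x, |P c (2 ^ J) x| ∂μ := by
    have h3 : μ.real A ≤ 2 * ((∫ x, |P c (2 ^ J) x| ∂μ) / t) := by linarith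
    calc t * μ.real A ≤ t * (2 * ((∫ x, |P c (2 ^ J) x| ∂μ) / t)) :=
          mul_le_mul_of_nonneg_left h3 ht.le
      _ = 2 * ∫ x, |P c (2 ^ J) x| ∂μ := by field_simp
  have h3 : E 1 (P c (2 ^ J)) = ENNReal.ofReal (∫ x, |P c (2 ^ J) x| ∂μ) := by
    unfold E
    rw [ofReal_integral_eq_lintegral_ofReal hPi (Eventually.of_forall fun x => abs_nonneg _)]
    refine lintegral_congr fun x => ?_
    rw [ENNReal.rpow_one, Real.enorm_eq_ofReal_abs]
  rw [h3]
  have h4 : μ A = ENNReal.ofReal (μ.real A) := (ENNReal.ofReal_toReal (measure_ne_top μ A)).symm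
  rw [h4, ← ENNReal.ofReal_mul ht.le]
  have h5 : (2 : ℝ≥0∞) = ENNReal.ofReal 2 := by norm_num
  rw [h5, ← ENNReal.ofReal_mul (by norm_num)]
  exact ENNReal.ofReal_le_ofReal h2

end Q176.LM
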